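import Pool.Agent.Helper92.AH.Defs

/-!
# Module GROW: new points in quadratic extensions
-/

set_option autoImplicit false

namespace Pool.Agent.Helper92.AH

open MvPolynomial

section grow

theorem grow_iter {K : Type} [Field K] (q n : ℕ) (z : K) :
    (fun z : K => z ^ q)^[n] z = z ^ (q ^ n) := by
  induction n generalizing z with
  | zero => simp
  | succ n ih =>
    rw [Function.iterate_succ_apply, ih, ← pow_mul, ← pow_succ']

theorem grow_iter_pi {K : Type} [Field K] {N : ℕ} (q n : ℕ) (x : Fin N → K) :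
    (fun (x : Fin N → K) (i : Fin N) => x i ^ q)^[n] x = fun i => x i ^ (q ^ n) := by
  induction n generalizing x with
  | zero => simp
  | succ n ih =>
    rw [Function.iterate_succ_apply, ih]
    funext i
    rw [← pow_mul, ← pow_succ']

theorem grow_periodic (F : Type) {K : Type} [Field F] [Finite F] [Field K] [Algebra F K]
    [Algebra.IsAlgebraic F K] (z : K) : ∃ e, 0 < e ∧ z ^ (Nat.card F ^ e) = z := by
  have h1 : IsIntegral F z := (Algebra.IsAlgebraic.isAlgebraic z).isIntegral
  have : FiniteDimensional F (IntermediateField.adjoin F {z}) :=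
    IntermediateField.adjoin.finiteDimensional h1
  have : Finite (IntermediateField.adjoin F {z}) := Module.finite_of_finite F
  refine ⟨Module.finrank F (IntermediateField.adjoin F {z}), Module.finrank_pos, ?_⟩
  rw [← Module.natCard_eq_pow_finrank]
  have : Fintype (IntermediateField.adjoin F {z}) := Fintype.ofFinite _
  have h2 := FiniteField.pow_card (⟨z, IntermediateField.mem_adjoin_simple_self F z⟩ :
    IntermediateField.adjoin F {z})
  rw [Nat.card_eq_fintype_card]
  exact congrArg Subtype.val h2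

/-- the set of elements of `K` with `z ^ (q ^ n) = z` is finite of cardinality `q ^ n` -/
theorem grow_card (F K : Type) [Field F] [Finite F] [Field K] [IsAlgClosed K] [Algebra F K]
    (n : ℕ) (hn : 0 < n) : {z : K | z ^ (Nat.card F ^ n) = z}.Finite ∧
      {z : K | z ^ (Nat.card F ^ n) = z}.ncard = Nat.card F ^ n := by
  classical
  obtain ⟨p, hp⟩ := CharP.exists F
  have := Fintype.ofFinite F
  obtain ⟨m, hpr, hm⟩ := FiniteField.card F p
  have : CharP K p := charP_of_injective_algebraMap (algebraMap F K).injective p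
  have hq1 : 1 < Nat.card F := Finite.one_lt_card
  have hQ1 : 1 < Nat.card F ^ n := Nat.one_lt_pow hn.ne' hq1
  have hpq : p ∣ Nat.card F ^ n := by
    rw [Nat.card_eq_fintype_card, hm]
    exact dvd_pow (dvd_pow_self p m.ne_zero) hn.ne'
  set f : Polynomial K := Polynomial.X ^ (Nat.card F ^ n) - Polynomial.X with hf
  have hsep : f.Separable := galois_poly_separable p _ hpq
  have hf0 : f ≠ 0 := FiniteField.X_pow_card_sub_X_ne_zero K hQ1
  have hdeg : f.natDegree = Nat.card F ^ n := FiniteField.X_pow_card_sub_X_natDegree_eq K hQ1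
  have hset : {z : K | z ^ (Nat.card F ^ n) = z} = f.rootSet K := by
    ext z
    rw [Polynomial.mem_rootSet]
    simp only [Set.mem_ofPred_eq, hf, map_sub, map_pow, Polynomial.aeval_X, sub_eq_zero]
    exact ⟨fun h => ⟨hf0, h⟩, fun h => h.2⟩
  have hcard := Polynomial.card_rootSet_eq_natDegree (K := K) hsep
    (IsAlgClosed.splits _)
  rw [hset]
  refine ⟨Set.toFinite _, ?_⟩
  rw [← hdeg, ← hcard, Set.ncard_eq_toFinset_card', Set.toFinset_card]

end grow

theorem st_GROW (hC : ST_COFIN) : ST_GROW := by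
  intro F K _ _ _ _ _ _ N ι _ P T hinf M hM
  classical
  set q := Nat.card F with hq
  have hq1 : 1 < q := Finite.one_lt_card
  -- a coordinate with infinite image
  have hex : ∃ i : Fin N, ((fun x : Fin N → K => x i) '' Pts P T K).Infinite := by
    by_contra hcon
    push Not at hcon
    apply hinf
    refine Set.Finite.subset (Set.Finite.pi' (t := fun i : Fin N =>
      (fun x : Fin N → K => x i) '' Pts P T K) fun i => ?_) ?_
    · exact Set.not_infinite.1 (by simpa using hcon i)
    · intro x hx i
      exact ⟨x, hx, rfl⟩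
  obtain ⟨i, hi⟩ := hex
  have hPts : Pts P T K = Pts (fun j => MvPolynomial.map (algebraMap F K) (P j)) T K := by
    unfold Pts
    simp only [MvPolynomial.aeval_map_algebraMap]
  have hco : ((fun x : Fin N → K => x i) '' Pts P T K)ᶜ.Finite := by
    rw [hPts] at hi ⊢
    exact hC K N ι _ T i hi
  -- 2-adic valuation of `M`
  obtain ⟨m, M', hM', hMm⟩ := Nat.exists_eq_two_pow_mul_odd hM.ne'
  -- an element of large 2-power period in the image
  have hSm := (grow_card F K (2 ^ m) (by positivity)).1
  set A : Set K := ((fun x : Fin N → K => x i) '' Pts P T K)ᶜ ∪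
    {z : K | z ^ (Nat.card F ^ (2 ^ m)) = z} with hA
  have hAf : A.Finite := hco.union hSm
  obtain ⟨hSf, hSc⟩ := grow_card F K (2 ^ A.ncard) (by positivity)
  have hbig : A.ncard < {z : K | z ^ (Nat.card F ^ (2 ^ A.ncard)) = z}.ncard := by
    rw [hSc]
    have h1 : A.ncard < 2 ^ A.ncard := Nat.lt_two_pow_self
    have h2 : 2 ^ A.ncard < Nat.card F ^ (2 ^ A.ncard) := Nat.lt_pow_self hq1
    exact h1.trans h2
  obtain ⟨t, htS, htA⟩ : ∃ t ∈ {z : K | z ^ (Nat.card F ^ (2 ^ A.ncard)) = z}, t ∉ A := by
    by_contra hcon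
    push Not at hcon
    have := Set.ncard_le_ncard hcon hAf
    omega
  rw [hA, Set.mem_union, not_or] at htA
  obtain ⟨ht1, ht2⟩ := htA
  rw [Set.notMem_compl_iff] at ht1
  obtain ⟨x, hx, hxt⟩ := ht1
  simp only at hxt
  -- the period of `t`
  set σ : K → K := fun z => z ^ q with hσ
  set Φ : (Fin N → K) → (Fin N → K) := fun x i => x i ^ q with hΦ
  have hσp : ∀ (n : ℕ) (z : K), Function.IsPeriodicPt σ n z ↔ z ^ (q ^ n) = z := by
    intro n z
    unfold Function.IsPeriodicPt Function.IsFixedPt
    rw [hσ, grow_iter]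
  have hΦp : ∀ (n : ℕ) (x : Fin N → K), Function.IsPeriodicPt Φ n x ↔
      ∀ i, x i ^ (q ^ n) = x i := by
    intro n x
    unfold Function.IsPeriodicPt Function.IsFixedPt
    rw [hΦ, grow_iter_pi]
    exact funext_iff
  have htper : Function.minimalPeriod σ t ∣ 2 ^ A.ncard := by
    rw [← Function.isPeriodicPt_iff_minimalPeriod_dvd, hσp]
    exact htS
  have htnot : ¬ Function.minimalPeriod σ t ∣ 2 ^ m := by
    rw [← Function.isPeriodicPt_iff_minimalPeriod_dvd, hσp]
    exact ht2
  obtain ⟨a, -, ha⟩ := (Nat.dvd_prime_pow Nat.prime_two).1 htper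
  have ham : m < a := by
    by_contra h
    rw [not_lt] at h
    apply htnot
    rw [ha]
    exact pow_dvd_pow 2 h
  -- the period of `x`
  have hxper : ∃ e, 0 < e ∧ Function.IsPeriodicPt Φ e x := by
    choose e he using fun j : Fin N => grow_periodic F (x j)
    refine ⟨∏ j, e j, Finset.prod_pos fun j _ => (he j).1, ?_⟩
    rw [hΦp]
    intro j
    rw [← hσp]
    exact ((hσp (e j) (x j)).2 (he j).2).trans_dvd (Finset.dvd_prod_of_mem e (Finset.mem_univ j))
  obtain ⟨e0, he0, he0p⟩ := hxper
  set e := Function.minimalPeriod Φ x with he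
  have hepos : 0 < e := he0p.minimalPeriod_pos he0
  have hte : Function.minimalPeriod σ t ∣ e := by
    rw [← Function.isPeriodicPt_iff_minimalPeriod_dvd, hσp, ← hxt]
    exact (hΦp e x).1 (Function.isPeriodicPt_minimalPeriod Φ x) i
  have h2e : 2 ^ (m + 1) ∣ e := by
    refine dvd_trans ?_ hte
    rw [ha]
    exact pow_dvd_pow 2 ham
  obtain ⟨b, hb⟩ := h2e
  have hM'pos : 0 < M' := by
    rcases Nat.eq_zero_or_pos M' with h | h
    · rw [h] at hM'
      exact absurd hM' (by decide)
    · exact h
  have hbpos : 0 < b := by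
    rcases Nat.eq_zero_or_pos b with h | h
    · rw [h, mul_zero] at hb
      omega
    · exact h
  refine ⟨2 ^ m * b * M', by positivity, ⟨b, by rw [hMm]; ring⟩, x, hx, ?_, ?_⟩
  · rw [← hΦp, Function.isPeriodicPt_iff_minimalPeriod_dvd, ← he, hb]
    exact ⟨M', by ring⟩
  · rw [← hΦp, Function.isPeriodicPt_iff_minimalPeriod_dvd, ← he, hb]
    rintro ⟨c, hc⟩
    have h1 : 2 ^ m * b * M' = 2 ^ m * b * (2 * c) := by rw [hc]; ring
    have h2 := Nat.eq_of_mul_eq_mul_left (by positivity) h1
    rw [h2] at hM'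
    exact (Nat.not_odd_iff_even.2 (even_two_mul c)) hM'

end Pool.Agent.Helper92.AH
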