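import Pool.Agent.Helper92.AH.Defs

/-!
# Module TRACE: powers of `CM` and the coefficients of `H_n`
-/

set_option autoImplicit false

namespace Pool.Agent.Helper92.AH

open MvPolynomial

section trace

variable {R : Type} [CommRing R] {N : ℕ}

theorem trace_HH_succ (q n : ℕ) (G : MvPolynomial (Fin N) R) :
    HH q (n + 1) G = G * expand q (HH q n G) := by
  unfold HH
  rw [Finset.prod_range_succ', pow_zero, expand_one_apply, map_prod, mul_comm]
  congr 1
  refine Finset.prod_congr rfl fun i _ => ?_
  rw [pow_succ', expand_mul]

theorem trace_degreeOf_expand (q : ℕ) (j : Fin N) (G : MvPolynomial (Fin N) R) :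
    degreeOf j (expand q G) ≤ q * degreeOf j G := by
  classical
  have h1 : expand q G = ∑ v ∈ G.support, monomial (q • v) (coeff v G) := by
    conv_lhs => rw [G.as_sum]
    rw [map_sum]
    exact Finset.sum_congr rfl fun v _ => expand_monomial q v _
  rw [h1]
  refine (degreeOf_sum_le j _ _).trans (Finset.sup_le fun v hv => ?_)
  rw [degreeOf_monomial_eq _ _ (mem_support_iff.1 hv), Finsupp.smul_apply, smul_eq_mul]
  exact Nat.mul_le_mul_left q (monomial_le_degreeOf j hv)

theorem trace_deg (q B : ℕ) (G : MvPolynomial (Fin N) R) (hq : 1 ≤ q)
    (hG : ∀ j, degreeOf j G ≤ (q - 1) * B) (n : ℕ) (j : Fin N) :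
    degreeOf j (HH q n G) ≤ (q ^ n - 1) * B := by
  induction n with
  | zero =>
    unfold HH
    simp
  | succ n ih =>
    rw [trace_HH_succ]
    refine (degreeOf_mul_le j _ _).trans ?_
    have h1 := hG j
    have h2 := trace_degreeOf_expand q j (HH q n G)
    have h3 : q * degreeOf j (HH q n G) ≤ q * ((q ^ n - 1) * B) := Nat.mul_le_mul_left q ih
    have h4 : (q ^ (n + 1) - 1) * B = (q - 1) * B + q * ((q ^ n - 1) * B) := by
      obtain ⟨a, rfl⟩ : ∃ a, q = a + 1 := ⟨q - 1, by omega⟩
      obtain ⟨b, hb⟩ : ∃ b, (a + 1) ^ n = b + 1 :=
        ⟨(a + 1) ^ n - 1, by have := Nat.one_le_pow n (a + 1) (by omega); omega⟩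
      rw [pow_succ, hb]
      simp only [Nat.add_sub_cancel]
      have : (b + 1) * (a + 1) - 1 = b * (a + 1) + a := by
        have : (b + 1) * (a + 1) = b * (a + 1) + a + 1 := by ring
        omega
      rw [this]
      ring
    omega

theorem trace_coeff_mul_expand (q : ℕ) (G H : MvPolynomial (Fin N) R) (e : Fin N →₀ ℕ) :
    coeff e (G * expand q H) = ∑ v ∈ H.support,
      if q • v ≤ e then coeff (e - q • v) G * coeff v H else 0 := by
  have h1 : expand q H = ∑ v ∈ H.support, monomial (q • v) (coeff v H) := by
    conv_lhs => rw [H.as_sum]
    rw [map_sum]
    exact Finset.sum_congr rfl fun v _ => expand_monomial q v _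
  rw [h1, Finset.mul_sum, coeff_sum]
  refine Finset.sum_congr rfl fun v _ => ?_
  rw [coeff_mul_monomial']

theorem trace_ex_apply {B C : ℕ} (q : ℕ) (w : Fin N → Fin B) (w' : Fin N → Fin C) (j : Fin N) :
    ex q w w' j = q * ((w j : ℕ) + 1) - ((w' j : ℕ) + 1) := rfl

theorem trace_pow (q B : ℕ) (G : MvPolynomial (Fin N) R) (hq : 1 ≤ q)
    (hG : ∀ j, degreeOf j G ≤ (q - 1) * B) (n : ℕ) (w w' : Fin N → Fin B) :
    (CM q B G ^ n) w w' =
      if ∀ j, (w' j : ℕ) + 1 ≤ q ^ n * ((w j : ℕ) + 1) then coeff (ex (q ^ n) w w') (HH q n G)
      else 0 := by
  classical
  induction n generalizing w' with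
  | zero =>
    rw [pow_zero, Matrix.one_apply]
    have hH : HH q 0 G = 1 := by unfold HH; simp
    rw [hH]
    by_cases hw : w = w'
    · subst hw
      rw [if_pos rfl, if_pos (by intro j; simp)]
      have he : ex (q ^ 0) w w = 0 := by
        ext j
        rw [trace_ex_apply]
        simp
      rw [he, coeff_zero_one]
    · rw [if_neg hw]
      split_ifs with hle
      · rw [coeff_one, if_neg]
        intro h0
        apply hw
        funext j
        have h1 := hle j
        have h2 : ex (q ^ 0) w w' j = 0 := by rw [← h0]; rfl
        rw [trace_ex_apply] at h2
        rw [pow_zero, one_mul] at h1 h2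
        apply Fin.ext
        omega
      · rfl
  | succ n ih =>
    rw [pow_succ, Matrix.mul_apply, trace_HH_succ]
    simp only [ih]
    split_ifs with hle
    · rw [trace_coeff_mul_expand]
      refine Finset.sum_bij_ne_zero (fun w'' _ _ => ex (q ^ n) w w'') ?_ ?_ ?_ ?_
      · intro w'' _ hne
        split_ifs at hne with h1
        · rw [mem_support_iff]
          exact left_ne_zero_of_mul hne
        · exact absurd (zero_mul _) hne
      · intro w1 _ hne1 w2 _ hne2 heq
        split_ifs at hne1 with h1
        · split_ifs at hne2 with h2
          · funext j
            have h3 := DFunLike.congr_fun heq j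
            rw [trace_ex_apply, trace_ex_apply] at h3
            have h4 := h1 j
            have h5 := h2 j
            apply Fin.ext
            omega
          · exact absurd (zero_mul _) hne2
        · exact absurd (zero_mul _) hne1
      · intro v hv hne
        split_ifs at hne with h1
        · have hcG : coeff (ex (q ^ (n + 1)) w w' - q • v) G ≠ 0 := left_ne_zero_of_mul hne
          have hcH : coeff v (HH q n G) ≠ 0 := right_ne_zero_of_mul hne
          have hv1 : ∀ j, v j + 1 ≤ q ^ n * ((w j : ℕ) + 1) := by
            intro j
            have h2 := h1 j
            rw [Finsupp.smul_apply, smul_eq_mul, trace_ex_apply, pow_succ'] at h2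
            have h3 := hle j
            rw [pow_succ'] at h3
            have h4 : q * v j < q * (q ^ n * ((w j : ℕ) + 1)) := by
              rw [mul_assoc] at h2 h3
              omega
            exact Nat.lt_of_mul_lt_mul_left h4
          have hv2 : ∀ j, q ^ n * ((w j : ℕ) + 1) - v j ≤ B := by
            intro j
            have h2 : (ex (q ^ (n + 1)) w w' - q • v) j ≤ (q - 1) * B :=
              (monomial_le_degreeOf j (mem_support_iff.2 hcG)).trans (hG j)
            rw [Finsupp.tsub_apply, Finsupp.smul_apply, smul_eq_mul, trace_ex_apply,
              pow_succ', mul_assoc] at h2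
            have h3 := (w' j).2
            have h5 : q * (q ^ n * ((w j : ℕ) + 1) - v j) ≤ q * B := by
              rw [Nat.mul_sub]
              have h6 : (q - 1) * B + B = q * B := by
                obtain ⟨a, rfl⟩ : ∃ a, q = a + 1 := ⟨q - 1, by omega⟩
                rw [Nat.add_sub_cancel]
                ring
              omega
            exact Nat.le_of_mul_le_mul_left h5 hq
          refine ⟨fun j => ⟨q ^ n * ((w j : ℕ) + 1) - v j - 1, by
            have := hv1 j
            have := hv2 j
            omega⟩, Finset.mem_univ _, ?_, ?_⟩
          · have hexv : ex (q ^ n) w (fun j => (⟨q ^ n * ((w j : ℕ) + 1) - v j - 1, by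
                have := hv1 j
                have := hv2 j
                omega⟩ : Fin B)) = v := by
              ext j
              rw [trace_ex_apply]
              have := hv1 j
              simp only
              omega
            rw [hexv, if_pos, CM, if_pos]
            · have hee : ex q (fun j => (⟨q ^ n * ((w j : ℕ) + 1) - v j - 1, by
                have := hv1 j
                have := hv2 j
                omega⟩ : Fin B)) w' = ex (q ^ (n + 1)) w w' - q • v := by
                ext j
                rw [Finsupp.tsub_apply, Finsupp.smul_apply, smul_eq_mul, trace_ex_apply,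
                  trace_ex_apply, pow_succ', mul_assoc]
                have h7 := hv1 j
                have h8 : q ^ n * ((w j : ℕ) + 1) - v j - 1 + 1 =
                  q ^ n * ((w j : ℕ) + 1) - v j := by omega
                simp only
                rw [h8, Nat.mul_sub]
                omega
              rw [hee]
              rw [mul_comm]
              exact hne
            · intro j
              have h7 := hv1 j
              have h8 : q ^ n * ((w j : ℕ) + 1) - v j - 1 + 1 =
                q ^ n * ((w j : ℕ) + 1) - v j := by omega
              simp only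
              rw [h8, Nat.mul_sub]
              have h2 := h1 j
              rw [Finsupp.smul_apply, smul_eq_mul, trace_ex_apply, pow_succ', mul_assoc] at h2
              have h3 := hle j
              rw [pow_succ', mul_assoc] at h3
              omega
            · intro j
              have := hv1 j
              simp only
              omega
          · ext j
            rw [trace_ex_apply]
            have := hv1 j
            simp only
            omega
        · exact absurd rfl hne
      · intro w'' _ hne
        split_ifs at hne with h1
        · have h2 : CM q B G w'' w' ≠ 0 := right_ne_zero_of_mul hne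
          unfold CM at h2
          split_ifs at h2 with h3
          · rw [if_pos h1, if_pos, CM, if_pos h3, mul_comm]
            · have hee : ex q w'' w' = ex (q ^ (n + 1)) w w' - q • ex (q ^ n) w w'' := by
                ext j
                rw [Finsupp.tsub_apply, Finsupp.smul_apply, smul_eq_mul, trace_ex_apply,
                  trace_ex_apply, trace_ex_apply, pow_succ', mul_assoc, Nat.mul_sub]
                have h4 := Nat.mul_le_mul_left q (h1 j)
                have h5 := h3 j
                omega
              rw [hee]
            · intro j
              rw [Finsupp.smul_apply, smul_eq_mul, trace_ex_apply, trace_ex_apply, pow_succ',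
                mul_assoc, Nat.mul_sub]
              have h5 := h3 j
              omega
          · exact absurd rfl h2
        · exact absurd (zero_mul _) hne
    · refine Finset.sum_eq_zero fun w'' _ => ?_
      split_ifs with h1
      · unfold CM
        rw [if_neg, mul_zero]
        intro h2
        apply hle
        intro j
        rw [pow_succ', mul_assoc]
        exact (h2 j).trans (Nat.mul_le_mul_left q (h1 j))
      · rw [zero_mul]

end trace

theorem st_TRACE : ST_TRACE := by
  intro R _ N q B G hq hG n _
  refine ⟨trace_deg q B G hq hG n, ?_⟩
  unfold Matrix.trace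
  refine Finset.sum_congr rfl fun w _ => ?_
  rw [Matrix.diag_apply, trace_pow q B G hq hG n w w, if_pos]
  · congr 1
    ext j
    rw [trace_ex_apply]
    show _ = (q ^ n - 1) * ((w j : ℕ) + 1)
    rw [Nat.sub_mul, one_mul]
  · intro j
    exact Nat.le_mul_of_pos_left _ (Nat.pow_pos hq)

end Pool.Agent.Helper92.AH
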